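import Pool.Agent.helper58.CRO.SpecB

/-! # Row cro:HIT (MP_5bf3c3_gt): climbing takes time -/

open scoped Manifold ContDiff Topology ENNReal
open MeasureTheory Set

noncomputable section

namespace Pool.Agent.CRO

/-- the integral estimate on one interval -/
theorem HIT_int (D : ℝ → ℝ) (β : Set ℝ) (v w c : ℝ) (hvw : v < w) (hc : 0 ≤ c)
    (hβ : MeasurableSet β) (hD : ContinuousOn D (Icc v w))
    (h1 : ∀ u ∈ Ioo v w, DifferentiableAt ℝ D u ∧ |deriv D u| ≤ 1)
    (h2 : ∀ u ∈ Ioo v w, u ∉ β → deriv D u ≤ c) :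
    D w - D v ≤ c * (w - v) + (volume (β ∩ Ioo v w)).toReal := by
  have hint : IntegrableOn (deriv D) (Ioo v w) volume := by
    apply Measure.integrableOn_of_bounded (M := 1)
    · rw [Real.volume_Ioo]
      exact ENNReal.ofReal_ne_top
    · exact (measurable_deriv D).aestronglyMeasurable
    · rw [ae_restrict_iff' measurableSet_Ioo]
      exact Filter.Eventually.of_forall (fun u hu => by
        rw [Real.norm_eq_abs]
        exact (h1 u hu).2)
  have hii : IntervalIntegrable (deriv D) volume v w := by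
    rw [intervalIntegrable_iff_integrableOn_Ioo_of_le hvw.le]
    exact hint
  have hftc := intervalIntegral.integral_eq_sub_of_hasDerivAt_of_le hvw.le hD
    (fun u hu => (h1 u hu).1.hasDerivAt) hii
  rw [intervalIntegral.integral_of_le hvw.le, integral_Ioc_eq_integral_Ioo] at hftc
  have hfin : volume (Ioo v w) ≠ ⊤ := by
    rw [Real.volume_Ioo]
    exact ENNReal.ofReal_ne_top
  have hg1 : IntegrableOn (fun _ : ℝ => c) (Ioo v w) volume := integrableOn_const hfin
  have hg2 : IntegrableOn (β.indicator (fun _ : ℝ => (1 : ℝ))) (Ioo v w) volume :=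
    (integrableOn_const hfin).indicator hβ
  have hle : ∫ u in Ioo v w, deriv D u ≤
      ∫ u in Ioo v w, (c + β.indicator (fun _ : ℝ => (1 : ℝ)) u) := by
    apply setIntegral_mono_on hint (hg1.add hg2) measurableSet_Ioo
    intro u hu
    by_cases hb : u ∈ β
    · have h3 := (abs_le.1 (h1 u hu).2).2
      have h4 : β.indicator (fun _ : ℝ => (1 : ℝ)) u = 1 := Set.indicator_of_mem hb _
      change deriv D u ≤ c + β.indicator (fun _ : ℝ => (1 : ℝ)) u
      rw [h4]
      linarith
    · have h3 := h2 u hu hb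
      have h4 : β.indicator (fun _ : ℝ => (1 : ℝ)) u = 0 := Set.indicator_of_notMem hb _
      change deriv D u ≤ c + β.indicator (fun _ : ℝ => (1 : ℝ)) u
      rw [h4]
      linarith
  have hval : ∫ u in Ioo v w, (c + β.indicator (fun _ : ℝ => (1 : ℝ)) u) =
      c * (w - v) + (volume (β ∩ Ioo v w)).toReal := by
    rw [integral_add hg1 hg2]
    congr 1
    · rw [setIntegral_const, smul_eq_mul, Measure.real, Real.volume_Ioo,
        ENNReal.toReal_ofReal (by linarith)]
      ring
    · rw [integral_indicator hβ, Measure.restrict_restrict hβ, setIntegral_const, smul_eq_mul,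
        mul_one, Measure.real]
  rw [← hftc, ← hval]
  exact hle

theorem HIT : HIT_stmt := by
  intro N k h U b d c D D' β hh hk hd hb hc hβ hvol hD hD0 hder hbad
  have hsd : 0 < Real.sqrt d := Real.sqrt_pos.2 hd
  have hfinβ : ∀ s : Set ℝ, volume (β ∩ s) ≠ ⊤ := fun s =>
    ne_top_of_le_ne_top ENNReal.ofReal_ne_top (le_trans (measure_mono Set.inter_subset_left) hvol)
  -- the measure of the bad set up to time u
  set m : ℝ → ℝ := fun u => (volume (β ∩ Icc 0 u)).toReal with hm
  have hmle : ∀ u, m u ≤ b := by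
    intro u
    have h1 : volume (β ∩ Icc 0 u) ≤ ENNReal.ofReal b :=
      le_trans (measure_mono Set.inter_subset_left) hvol
    have h2 := ENNReal.toReal_mono ENNReal.ofReal_ne_top h1
    rwa [ENNReal.toReal_ofReal hb] at h2
  have hmono : ∀ u u', u ≤ u' → m u ≤ m u' := by
    intro u u' huu
    apply ENNReal.toReal_mono (hfinβ _)
    exact measure_mono (Set.inter_subset_inter_right _ (Icc_subset_Icc_right huu))
  have hadd : ∀ v w, 0 ≤ v → v < w → m v + (volume (β ∩ Ioo v w)).toReal ≤ m w := by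
    intro v w hv hvw
    rw [hm]
    simp only
    rw [← ENNReal.toReal_add (hfinβ _) (hfinβ _)]
    apply ENNReal.toReal_mono (hfinβ _)
    rw [← measure_union]
    · apply measure_mono
      rintro x (⟨hx1, hx2⟩ | ⟨hx1, hx2⟩)
      · exact ⟨hx1, hx2.1, hx2.2.trans hvw.le⟩
      · exact ⟨hx1, hv.trans hx2.1.le, hx2.2.le⟩
    · rw [Set.disjoint_left]
      rintro x ⟨-, hx1⟩ ⟨-, hx2⟩
      exact absurd hx1.2 (not_le.2 hx2.1)
    · exact hβ.inter measurableSet_Ioo
  -- the induction
  have key : ∀ j, k ≤ j → j ≤ N → ∀ u ∈ Icc 0 U, (j : ℝ) * h ≤ D u →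
      ∑ i ∈ Finset.Ioc k j, h / c i ≤ u + m u / Real.sqrt d := by
    intro j hkj
    induction j, hkj using Nat.le_induction with
    | base =>
      intro _ u hu _
      rw [Finset.Ioc_self, Finset.sum_empty]
      have h1 : 0 ≤ m u := ENNReal.toReal_nonneg
      have h2 : 0 ≤ m u / Real.sqrt d := div_nonneg h1 hsd.le
      linarith [hu.1]
    | succ j hkj ih =>
      intro hjN u hu hDu
      have hcj := hc (j + 1) (by omega) hjN
      have hcpos : 0 < c (j + 1) := lt_of_lt_of_le hsd hcj.1
      have hkjR : (k : ℝ) * h ≤ (j : ℝ) * h :=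
        mul_le_mul_of_nonneg_right (by exact_mod_cast hkj) hh.le
      have hjpos : 0 < (j : ℝ) * h := by
        have : (0 : ℝ) < (j : ℝ) := by exact_mod_cast (by omega : 0 < j)
        positivity
      have hj1 : ((j + 1 : ℕ) : ℝ) * h = (j : ℝ) * h + h := by
        push_cast
        ring
      -- the first time with D ≥ (j+1) h
      have hDu' : ContinuousOn D (Icc 0 u) := hD.mono (Icc_subset_Icc_right hu.2)
      have hS : IsCompact (Icc 0 u ∩ {t | ((j + 1 : ℕ) : ℝ) * h ≤ D t}) := by
        have hcl : IsClosed (Icc 0 u ∩ D ⁻¹' (Ici (((j + 1 : ℕ) : ℝ) * h))) :=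
          hDu'.preimage_isClosed_of_isClosed isClosed_Icc isClosed_Ici
        exact isCompact_Icc.of_isClosed_subset hcl Set.inter_subset_left
      obtain ⟨w, ⟨hw1, hw2⟩, hwl⟩ := hS.exists_isLeast ⟨u, ⟨⟨hu.1, le_rfl⟩, hDu⟩⟩
      have hw2' : ((j + 1 : ℕ) : ℝ) * h ≤ D w := hw2
      -- the last time before it with D ≤ j h
      have hDw : ContinuousOn D (Icc 0 w) := hD.mono (Icc_subset_Icc_right (hw1.2.trans hu.2))
      have hS' : IsCompact (Icc 0 w ∩ {t | D t ≤ (j : ℝ) * h}) := by
        have hcl : IsClosed (Icc 0 w ∩ D ⁻¹' (Iic ((j : ℝ) * h))) :=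
          hDw.preimage_isClosed_of_isClosed isClosed_Icc isClosed_Iic
        exact isCompact_Icc.of_isClosed_subset hcl Set.inter_subset_left
      obtain ⟨v, ⟨hv1, hv2⟩, hvl⟩ := hS'.exists_isGreatest
        ⟨0, ⟨⟨le_rfl, hw1.1⟩, (hD0.trans_le hkjR).le⟩⟩
      have hv2' : D v ≤ (j : ℝ) * h := hv2
      have hvw : v < w := by
        apply lt_of_le_of_ne hv1.2
        rintro rfl
        linarith
      have hDv : D v = (j : ℝ) * h := by
        have hIV := intermediate_value_Icc hvw.le (hDw.mono (Icc_subset_Icc_left hv1.1))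
        obtain ⟨t, ht1, ht2⟩ := hIV ⟨hv2', by linarith⟩
        have h3 : t ≤ v := hvl ⟨⟨hv1.1.trans ht1.1, ht1.2⟩, le_of_eq ht2⟩
        have h4 : t = v := le_antisymm h3 ht1.1
        rw [← h4]
        exact ht2
      have hvU : v ∈ Icc 0 U := ⟨hv1.1, hv1.2.trans (hw1.2.trans hu.2)⟩
      have hih := ih (by omega) v hvU hDv.ge
      have hIoo : ∀ t ∈ Ioo v w, t ∈ Ioo 0 U ∧ (j : ℝ) * h < D t ∧ D t < ((j + 1 : ℕ) : ℝ) * h := by
        intro t ht
        refine ⟨⟨lt_of_le_of_lt hv1.1 ht.1, lt_of_lt_of_le ht.2 (hw1.2.trans hu.2)⟩, ?_, ?_⟩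
        · by_contra hcon
          push Not at hcon
          have := hvl ⟨⟨hv1.1.trans ht.1.le, ht.2.le⟩, hcon⟩
          exact absurd ht.1 (not_lt.2 this)
        · by_contra hcon
          push Not at hcon
          have := hwl ⟨⟨hv1.1.trans ht.1.le, ht.2.le.trans hw1.2⟩, hcon⟩
          exact absurd ht.2 (not_lt.2 this)
      have hI := HIT_int D β v w (c (j + 1)) hvw hcpos.le hβ
        (hDw.mono (Icc_subset_Icc_left hv1.1))
        (fun t ht => by
          obtain ⟨h3, h4, -⟩ := hIoo t ht
          obtain ⟨h5, h6⟩ := hder t h3 (hjpos.trans h4)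
          exact ⟨h5.differentiableAt, by rw [h5.deriv]; exact h6⟩)
        (fun t ht htβ => by
          obtain ⟨h3, h4, h5⟩ := hIoo t ht
          obtain ⟨h6, -⟩ := hder t h3 (hjpos.trans h4)
          rw [h6.deriv]
          exact hbad t h3 htβ (j + 1) (by omega) hjN (hjpos.trans h4) h5)
      have ha := hadd v w hv1.1 hvw
      have hmw := hmono w u hw1.2
      -- h ≤ c (w - v) + (m w - m v)
      have h7 : h ≤ c (j + 1) * (w - v) + (m w - m v) := by linarith
      have h8 : h / c (j + 1) ≤ (w - v) + (m w - m v) / Real.sqrt d := by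
        have h9 : 0 ≤ m w - m v := by
          have := hmono v w hvw.le
          linarith
        have h10 : (m w - m v) / c (j + 1) ≤ (m w - m v) / Real.sqrt d :=
          div_le_div_of_nonneg_left h9 hsd hcj.1
        have h11 : h / c (j + 1) ≤ (w - v) + (m w - m v) / c (j + 1) := by
          rw [div_le_iff₀ hcpos, add_mul, div_mul_cancel₀ _ hcpos.ne']
          linarith
        linarith
      rw [Finset.sum_Ioc_succ_top hkj]
      have h12 : m v / Real.sqrt d + (m w - m v) / Real.sqrt d = m w / Real.sqrt d := by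
        rw [← add_div]
        congr 1
        ring
      have h13 : m w / Real.sqrt d ≤ m u / Real.sqrt d := div_le_div_of_nonneg_right hmw hsd.le
      linarith [hw1.2]
  intro j hkj hjN u hu hlt
  by_contra hcon
  push Not at hcon
  have h1 := key j hkj.le hjN u hu hcon
  have h2 : m u / Real.sqrt d ≤ b / Real.sqrt d := div_le_div_of_nonneg_right (hmle u) hsd.le
  linarith

end Pool.Agent.CRO
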