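import Pool.Agent.helper58.CRO.SpecD

/-! # Row cro:CBL (MP_5bf3c3_gt): the coefficients of the metric in a chart -/

open scoped Manifold ContDiff Topology ENNReal
open MeasureTheory Set Bundle

noncomputable section

namespace Pool.Agent.CRO

universe u

theorem CBL_inj {n : ℕ} {M : Type u} [TopologicalSpace M] [ChartedSpace (En n) M]
    [IsManifold (𝓡 n) ∞ M] (e : OpenPartialHomeomorph M (En n))
    (he : e ∈ IsManifold.maximalAtlas (𝓡 n) ∞ M) (y : En n) (hy : y ∈ e.target) (v : En n)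
    (hv : mfderiv 𝓘(ℝ, En n) (𝓡 n) e.symm y v = 0) : v = 0 := by
  have hmd : e.MDifferentiable (𝓡 n) (𝓡 n) :=
    ⟨(contMDiffOn_of_mem_maximalAtlas he).mdifferentiableOn (by simp),
      (contMDiffOn_symm_of_mem_maximalAtlas he).mdifferentiableOn (by simp)⟩
  have h := hmd.comp_symm_deriv hy
  have h2 := congrArg (fun L => L v) h
  simp only [ContinuousLinearMap.comp_apply] at h2
  have h3 : (mfderiv (𝓡 n) (𝓡 n) e.symm y) v = 0 := hv
  rw [h3, map_zero] at h2
  exact h2.symm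

theorem CBL : CBL_stmt.{u} := by
  intro n M _ _ _ g e he y hy
  refine ⟨?_, ?_, ?_, ?_⟩
  · intro v w
    exact g.symm _ _ _
  · intro v v' w
    have h1 := (mfderiv 𝓘(ℝ, En n) (𝓡 n) e.symm y).map_add v v'
    have h2 := (g.inner (e.symm y)).map_add (mfderiv 𝓘(ℝ, En n) (𝓡 n) e.symm y v)
      (mfderiv 𝓘(ℝ, En n) (𝓡 n) e.symm y v')
    exact (congrArg (fun u => g.inner (e.symm y) u (mfderiv 𝓘(ℝ, En n) (𝓡 n) e.symm y w))
      h1).trans (congrArg (fun L => L (mfderiv 𝓘(ℝ, En n) (𝓡 n) e.symm y w)) h2)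
  · intro c v w
    have h1 := (mfderiv 𝓘(ℝ, En n) (𝓡 n) e.symm y).map_smul c v
    have h2 := (g.inner (e.symm y)).map_smul c (mfderiv 𝓘(ℝ, En n) (𝓡 n) e.symm y v)
    exact (congrArg (fun u => g.inner (e.symm y) u (mfderiv 𝓘(ℝ, En n) (𝓡 n) e.symm y w))
      h1).trans (congrArg (fun L => L (mfderiv 𝓘(ℝ, En n) (𝓡 n) e.symm y w)) h2)
  · intro v hv
    apply g.pos
    intro h
    exact hv (CBL_inj e he y hy v h)

end Pool.Agent.CRO
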