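import Pool.Agent.helper58.CRO.SpecJ

open scoped Manifold ContDiff Topology ENNReal
open MeasureTheory Set

noncomputable section

namespace Pool.Agent.CRO

lemma JLI_key (n : ℕ) (hn : 2 ≤ n) (X XL XX e : ℝ) (hX : 0 < X) (hXX : 0 < XX)
    (h : ∀ t : ℝ, 0 < t → ((n : ℝ) + 1) * X * t ^ n * XL ≤
      XX ^ 2 + n * X ^ 2 * t ^ (n + 1) + ((n : ℝ) + 1) * X * t ^ n * e) :
    ((n : ℝ) + 1) * XL - 2 * XX ≤ ((n : ℝ) - 1) * X + ((n : ℝ) + 1) * e := by
  have hn1 : (0 : ℝ) < (n : ℝ) + 1 := by positivity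
  have hn2 : (2 : ℝ) ≤ n := by exact_mod_cast hn
  set u : ℝ := XX / X with hu
  have hu0 : 0 < u := div_pos hXX hX
  set t : ℝ := u ^ (2 / ((n : ℝ) + 1)) with ht
  have ht0 : 0 < t := Real.rpow_pos_of_pos hu0 _
  have htn : t ^ (n + 1) = u ^ 2 := by
    rw [ht, ← Real.rpow_natCast, ← Real.rpow_mul hu0.le]
    have e1 : 2 / ((n : ℝ) + 1) * ((n + 1 : ℕ) : ℝ) = ((2 : ℕ) : ℝ) := by
      push_cast
      field_simp
    rw [e1, Real.rpow_natCast]
  have hXX2 : XX ^ 2 = X ^ 2 * t ^ (n + 1) := by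
    rw [htn, hu]
    field_simp
  have h1 := h t ht0
  rw [hXX2] at h1
  have htn0 : 0 < t ^ n := pow_pos ht0 n
  have h2 : XL ≤ X * t + e := by
    have h3 : ((n : ℝ) + 1) * X * t ^ n * XL ≤ ((n : ℝ) + 1) * X * t ^ n * (X * t + e) := by
      have h4 : ((n : ℝ) + 1) * X * t ^ n * (X * t + e) =
          X ^ 2 * t ^ (n + 1) + n * X ^ 2 * t ^ (n + 1) + ((n : ℝ) + 1) * X * t ^ n * e := by
        ring
      rw [h4]
      exact h1
    exact le_of_mul_le_mul_left h3 (by positivity)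
  have h5 : ((n : ℝ) + 1) * t ≤ 2 * u + ((n : ℝ) - 1) := by
    have h6 := Real.geom_mean_le_arith_mean2_weighted (w₁ := 2 / ((n : ℝ) + 1))
      (w₂ := ((n : ℝ) - 1) / ((n : ℝ) + 1)) (p₁ := u) (p₂ := 1) (by positivity)
      (div_nonneg (by linarith) hn1.le) hu0.le zero_le_one (by field_simp; ring)
    rw [Real.one_rpow, mul_one, mul_one, ← ht] at h6
    have h7 : ((n : ℝ) + 1) * t ≤ ((n : ℝ) + 1) *
        (2 / ((n : ℝ) + 1) * u + ((n : ℝ) - 1) / ((n : ℝ) + 1)) :=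
      mul_le_mul_of_nonneg_left h6 hn1.le
    have h8 : ((n : ℝ) + 1) * (2 / ((n : ℝ) + 1) * u + ((n : ℝ) - 1) / ((n : ℝ) + 1)) =
        2 * u + ((n : ℝ) - 1) := by
      field_simp
    rw [h8] at h7
    exact h7
  have h9 : X * u = XX := by
    rw [hu]
    field_simp
  have h10 : ((n : ℝ) + 1) * XL ≤ ((n : ℝ) + 1) * (X * t + e) :=
    mul_le_mul_of_nonneg_left h2 hn1.le
  have h11 : X * (((n : ℝ) + 1) * t) ≤ X * (2 * u + ((n : ℝ) - 1)) :=
    mul_le_mul_of_nonneg_left h5 hX.le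
  have h12 : X * (2 * u + ((n : ℝ) - 1)) = 2 * XX + ((n : ℝ) - 1) * X := by
    rw [← h9]
    ring
  rw [h12] at h11
  have h13 : ((n : ℝ) + 1) * (X * t + e) = X * (((n : ℝ) + 1) * t) + ((n : ℝ) + 1) * e := by
    ring
  rw [h13] at h10
  linarith

theorem JLI (h1 : JSP_stmt) (h2 : JNU_stmt) (h3 : JVL_stmt) : JLI_stmt := by
  intro n r0 G L R hn hE hL hR hr0 hRL N κ Ω α mx hN hκ hΩ hα hα2 hmx
  obtain ⟨hX0, _, hkap, _, _, _, _⟩ := h2 n hn
  obtain ⟨⟨c, C, hc, _, hvv⟩, _⟩ := h3 n r0 G R hn hR hr0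
  have hcos : 0 < Real.cos α := Real.cos_pos_of_mem_Ioo ⟨by linarith [Real.pi_pos], hα2⟩
  have hN0 : (0 : ℝ) < N := by exact_mod_cast hN
  have hn0 : (0 : ℝ) < n := by
    have : 0 < n := by omega
    exact_mod_cast this
  have hRN : 0 < R / N := div_pos hR hN0
  have hlj : ∀ j ∈ Finset.Icc 1 N, 0 < lj G R N j := by
    intro j hj
    have hj1 : (0 : ℝ) < j := by
      have := (Finset.mem_Icc.mp hj).1
      exact_mod_cast this
    have hv : 0 < vv G R N j := by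
      refine lt_of_lt_of_le ?_ (hvv N j hN hj).1
      positivity
    unfold lj
    apply Real.rpow_pos_of_pos
    positivity
  have hW : ∀ s : ℝ, 0 < Wf Ω α s := by
    intro s
    unfold Wf
    apply Real.sqrt_pos_of_pos
    positivity
  set XL : ℝ := Ω * Real.cos α * ∑ j ∈ Finset.Icc 1 N, R / N *
          (lj G R N j ^ (n - 1) * κ j ^ 2 / Wf Ω α (lj G R N j) ^ (n + 1) *
            tr1 n α (Ω / lj G R N j)) with hXLd
  set XX : ℝ := Ω * Real.cos α * ∑ j ∈ Finset.Icc 1 N, R / N *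
          (lj G R N j ^ (n - 1) * κ j ^ (n + 1) / Wf Ω α (lj G R N j) ^ (n + 1)) with hXXd
  have hXX : 0 < XX := by
    rw [hXXd]
    apply mul_pos (mul_pos hΩ hcos)
    apply Finset.sum_pos
    · intro j hj
      have g1 := hlj j hj
      have g2 := hW (lj G R N j)
      have g3 := (hκ j).1
      positivity
    · exact ⟨1, Finset.mem_Icc.mpr ⟨le_refl 1, hN⟩⟩
  have key := JLI_key n hn (X0 n) XL XX (mx / (n * kap n * (Ω * Real.cos α) ^ n)) hX0 hXX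
    (fun t ht => h1 n r0 G L R hn hE hL hR hr0 hRL N κ Ω α t mx hN hκ hΩ hα hα2 ht hmx)
  have e1 : Ω * Real.cos α * ∑ j ∈ Finset.Icc 1 N, R / N *
          (lj G R N j ^ (n - 1) / Wf Ω α (lj G R N j) ^ (n + 1) *
            ((n + 1) * κ j ^ 2 * tr1 n α (Ω / lj G R N j) - 2 * κ j ^ (n + 1))) =
      ((n : ℝ) + 1) * XL - 2 * XX := by
    rw [hXLd, hXXd, mul_left_comm ((n : ℝ) + 1), mul_left_comm (2 : ℝ), ← mul_sub,
      Finset.mul_sum (Finset.Icc 1 N) _ ((n : ℝ) + 1), Finset.mul_sum (Finset.Icc 1 N) _ (2 : ℝ),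
      ← Finset.sum_sub_distrib]
    congr 1
    apply Finset.sum_congr rfl
    intro j _
    ring
  rw [e1]
  have e2 : ((n : ℝ) + 1) * mx / (n * kap n * (Ω * Real.cos α) ^ n) =
      ((n : ℝ) + 1) * (mx / (n * kap n * (Ω * Real.cos α) ^ n)) := mul_div_assoc _ _ _
  rw [e2]
  exact key

end Pool.Agent.CRO
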