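import Pool.Agent.helper58.CRO.SpecL
import Pool.Agent.helper35.CRO.JVL

/-!
# MP_5bf3c3_gt, row cro:LSH: lower bounds for the shells
-/

open scoped Manifold ContDiff Topology ENNReal
open MeasureTheory Set

noncomputable section

namespace Pool.Agent.CRO

private theorem LSH_pow (a b : ℝ) (hb : 0 ≤ b) (hba : b ≤ a) (k : ℕ) :
    (k + 1) * b ^ k * (a - b) ≤ a ^ (k + 1) - b ^ (k + 1) := by
  have ha : 0 ≤ a := hb.trans hba
  induction k with
  | zero => simp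
  | succ k ih =>
    have h1 : a ^ (k + 1 + 1) - b ^ (k + 1 + 1) =
        a ^ (k + 1) * (a - b) + b * (a ^ (k + 1) - b ^ (k + 1)) := by ring
    have h2 : b ^ (k + 1) * (a - b) ≤ a ^ (k + 1) * (a - b) :=
      mul_le_mul_of_nonneg_right (pow_le_pow_left₀ hb hba _) (by linarith)
    have h3 := mul_le_mul_of_nonneg_left ih hb
    rw [h1]
    push_cast
    have h4 : b * ((k + 1) * b ^ k * (a - b)) = (k + 1) * b ^ (k + 1) * (a - b) := by ring
    rw [h4] at h3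
    nlinarith

private theorem LSH_main {k : ℕ} {r0 : ℝ} (𝒢 : NChart (k + 1) r0) (hk : 1 ≤ k) (R r1 m : ℝ)
    (hR : 0 < R) (hr1 : r1 < r0) (hm : 0 ≤ m)
    (hc : ∀ x ∈ Metric.ball (0 : En (k + 1)) r1, m ^ k ≤ H79L_f 𝒢 x) (N j : ℕ) (hN : 1 ≤ N)
    (hj : j ∈ Finset.Icc 1 N) (hjr : (j : ℝ) * (R / N) < r1) :
    m * (((j : ℝ) - 1) * (R / N)) ≤ lj 𝒢 R N j := by
  obtain ⟨hj1, hjN⟩ := Finset.mem_Icc.1 hj
  have hN' : (0 : ℝ) < N := by exact_mod_cast hN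
  have hj1' : (1 : ℝ) ≤ j := by exact_mod_cast hj1
  obtain ⟨h, hh⟩ : ∃ h, h = R / N := ⟨_, rfl⟩
  have hhp : 0 < h := by rw [hh]; positivity
  have hb0 : 0 ≤ ((j : ℝ) - 1) * h := mul_nonneg (by linarith) hhp.le
  have hba : ((j : ℝ) - 1) * h ≤ j * h := mul_le_mul_of_nonneg_right (by linarith) hhp.le
  have hd : (j : ℝ) * h - ((j : ℝ) - 1) * h = h := by ring
  have hkap : 0 < kap (k + 1) := VVP_kap_pos
  rw [← hh] at hjr ⊢
  have hlo := JVL_lower 𝒢 (by omega) r1 (m ^ k) hr1 hc _ _ hb0 hba hjr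
  have hp := LSH_pow _ _ hb0 hba k
  rw [hd] at hp
  have hvv : vv 𝒢 R N j = VV 𝒢 (j * h) - VV 𝒢 (((j : ℝ) - 1) * h) := by
    unfold vv
    rw [← hh]
  have h1 : (m * (((j : ℝ) - 1) * h)) ^ k ≤
      vv 𝒢 R N j / (h * (((k + 1 : ℕ) : ℝ) * kap (k + 1))) := by
    rw [le_div_iff₀ (by positivity), hvv]
    refine le_trans ?_ hlo
    have h2 := mul_le_mul_of_nonneg_left hp (mul_nonneg hkap.le (pow_nonneg hm k))
    rw [mul_pow]
    push_cast
    nlinarith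
  unfold lj
  rw [← hh]
  have he : (1 : ℝ) / (((k + 1 : ℕ) : ℝ) - 1) = ((k : ℕ) : ℝ)⁻¹ := by
    push_cast
    rw [add_sub_cancel_right, one_div]
  rw [he]
  have h0 : 0 ≤ m * (((j : ℝ) - 1) * h) := mul_nonneg hm hb0
  calc m * (((j : ℝ) - 1) * h) = ((m * (((j : ℝ) - 1) * h)) ^ k) ^ (((k : ℕ) : ℝ)⁻¹) :=
        (Real.pow_rpow_inv_natCast h0 (by omega)).symm
    _ ≤ _ := Real.rpow_le_rpow (pow_nonneg h0 k) h1 (by positivity)

theorem LSH : LSH_stmt := by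
  intro n r0 𝒢 R hn hR hRr δ hδ hδ1
  obtain ⟨k, rfl⟩ : ∃ k, n = k + 1 := ⟨n - 1, by omega⟩
  have hk : 1 ≤ k := by omega
  have hr0 : 0 < r0 := hR.trans hRr
  -- the constant c
  obtain ⟨r1, hr1⟩ : ∃ r1, r1 = (R + r0) / 2 := ⟨_, rfl⟩
  have hRr1 : R < r1 := by rw [hr1]; linarith
  have hr10 : r1 < r0 := by rw [hr1]; linarith
  have hr1p : 0 < r1 := hR.trans hRr1
  obtain ⟨y, hy, hmin⟩ := (isCompact_closedBall (0 : En (k + 1)) r1).exists_isMinOn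
    ⟨0, Metric.mem_closedBall_self hr1p.le⟩
    ((H79L_f_cont 𝒢).mono (Metric.closedBall_subset_ball hr10))
  have hy' : ‖y‖ < r0 := lt_of_le_of_lt (mem_closedBall_zero_iff.1 hy) hr10
  have hcpos : 0 < H79L_f 𝒢 y := H79L_f_pos 𝒢 y hy'
  obtain ⟨c, hc⟩ : ∃ c, c = min 1 (H79L_f 𝒢 y) := ⟨_, rfl⟩
  have hc0 : 0 < c := by rw [hc]; exact lt_min one_pos hcpos
  have hc1 : c ≤ 1 := by rw [hc]; exact min_le_left _ _
  have hck : c ^ k ≤ H79L_f 𝒢 y := by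
    have h1 : c ^ k ≤ c ^ 1 := pow_le_pow_of_le_one hc0.le hc1 hk
    rw [pow_one] at h1
    refine h1.trans ?_
    rw [hc]
    exact min_le_right _ _
  -- the radius ρ0
  have hf0 : H79L_f 𝒢 0 = 1 := by
    have h1 : (ContinuousLinearMap.id ℝ (En (k + 1))).det = 1 := by
      unfold ContinuousLinearMap.det
      exact LinearMap.det_id
    unfold H79L_f
    rw [𝒢.zero, h1, Real.sqrt_one, inv_one]
  have hcont : ContinuousAt (H79L_f 𝒢) 0 :=
    (H79L_f_cont 𝒢).continuousAt (Metric.ball_mem_nhds _ hr0)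
  have hlt : (1 - δ) ^ k < H79L_f 𝒢 0 := by
    rw [hf0]
    exact pow_lt_one₀ (by linarith) (by linarith) (by omega)
  have hev := hcont.eventually (lt_mem_nhds hlt)
  obtain ⟨s, hs, hs2⟩ := Metric.eventually_nhds_iff_ball.1 hev
  obtain ⟨r2, hr2⟩ : ∃ r2, r2 = min s (r0 / 2) := ⟨_, rfl⟩
  have hr2p : 0 < r2 := by rw [hr2]; exact lt_min hs (by linarith)
  have hr2s : r2 ≤ s := by rw [hr2]; exact min_le_left _ _
  have hr20 : r2 < r0 := by
    have : r2 ≤ r0 / 2 := by rw [hr2]; exact min_le_right _ _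
    linarith
  refine ⟨r2 / 2, c, by positivity, hc0, ?_⟩
  intro N j hN hj
  obtain ⟨hj1, hjN⟩ := Finset.mem_Icc.1 hj
  have hN' : (0 : ℝ) < N := by exact_mod_cast hN
  have hjN' : (j : ℝ) ≤ N := by exact_mod_cast hjN
  have hjR : (j : ℝ) * (R / N) ≤ R := by
    have h1 : (N : ℝ) * (R / N) = R := by field_simp
    calc (j : ℝ) * (R / N) ≤ N * (R / N) := mul_le_mul_of_nonneg_right hjN' (by positivity)
      _ = R := h1
  refine ⟨?_, fun hle => ?_⟩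
  · refine LSH_main 𝒢 hk R r1 c hR hr10 hc0.le (fun x hx => ?_) N j hN hj (by linarith)
    exact hck.trans (hmin (Metric.ball_subset_closedBall hx))
  · refine LSH_main 𝒢 hk R r2 (1 - δ) hR hr20 (by linarith) (fun x hx => ?_) N j hN hj (by linarith)
    exact (hs2 x (Metric.ball_subset_ball hr2s hx)).le

end Pool.Agent.CRO
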